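import Pool.Agent.Q266.VG.Stm

/-!
# Project VG, job EVA: evaluation of left normed commutators, first pattern
-/

set_option autoImplicit false

namespace Pool.Agent.Q192.VG

open Pool.Agent.Q266.VG
open scoped commutatorElement

/-- the matrix unit `E_{0,l}` -/
def el (l : ℕ) : Mat 6 := fun i j => if (i : ℕ) = 0 ∧ (j : ℕ) = l then 1 else 0

lemma isN_el (l : ℕ) : IsN 6 l (el l) := fun i j h => by
  unfold el; rw [if_neg]; omega

lemma bA_eq : bA = el 1 := rfl

lemma el_mul_aA (l : ℕ) (h1 : 1 ≤ l) (h2 : l ≤ 4) : el l * aA = el (l + 1) := by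
  interval_cases l <;> decide +kernel

lemma aA_mul_el (l : ℕ) : aA * el l = 0 := by
  ext i j
  rw [Matrix.mul_apply]
  refine Finset.sum_eq_zero fun k _ => ?_
  unfold aA el
  by_cases hk : (k : ℕ) = 0
  · rw [if_neg (by omega), zero_mul]
  · rw [if_neg (by omega : ¬ ((k : ℕ) = 0 ∧ (j : ℕ) = l)), mul_zero]

lemma bA_mul_el (l : ℕ) : bA * el l = 0 := by
  ext i j
  rw [Matrix.mul_apply]
  refine Finset.sum_eq_zero fun k _ => ?_
  unfold bA el
  by_cases hk : (k : ℕ) = 0
  · rw [if_neg (by omega), zero_mul]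
  · rw [if_neg (by omega : ¬ ((k : ℕ) = 0 ∧ (j : ℕ) = l)), mul_zero]

lemma el_mul_bA (l : ℕ) (hl : 1 ≤ l) : el l * bA = 0 := by
  ext i j
  rw [Matrix.mul_apply]
  refine Finset.sum_eq_zero fun k _ => ?_
  unfold bA el
  by_cases hk : (k : ℕ) = 0
  · rw [if_neg (by omega : ¬ ((i : ℕ) = 0 ∧ (k : ℕ) = l)), zero_mul]
  · rw [if_neg (by omega : ¬ ((k : ℕ) = 0 ∧ (j : ℕ) = 1)), mul_zero]

lemma E_append {G : Type} [Group G] (x : ℕ → G) (y z : ℕ) (Z : List ℕ) (k : ℕ) :
    E x y z (Z ++ [k]) = ⁅E x y z Z, x k⁆ := by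
  unfold E
  rw [List.foldl_append]
  rfl

/-- the step for two elements with known leading terms -/
lemma lead_step (hL : S_LEAD) (l : ℕ) (hl : 1 ≤ l) (g h : (Mat 6)ˣ) (X Y : Mat 6)
    (hX : IsN 6 l X) (hY : IsN 6 1 Y) (hg : IsN 6 (l + 1) ((g : Mat 6) - 1 - X))
    (hh : IsN 6 2 ((h : Mat 6) - 1 - Y)) :
    IsN 6 (l + 2) (((⁅g, h⁆ : (Mat 6)ˣ) : Mat 6) - 1 - (X * Y - Y * X)) := by
  have hg' : IsN 6 l ((g : Mat 6) - 1) := by
    have := (hg.mono (l := l) (by omega)).add hX
    rwa [sub_add_cancel] at this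
  have hh' : IsN 6 1 ((h : Mat 6) - 1) := by
    have := (hh.mono (l := 1) (by omega)).add hY
    rwa [sub_add_cancel] at this
  have h1 := hL 6 l 1 g h hl le_rfl hg' hh'
  set X' : Mat 6 := (g : Mat 6) - 1 - X with hX'
  set Y' : Mat 6 := (h : Mat 6) - 1 - Y with hY'
  have eg : (g : Mat 6) - 1 = X + X' := by rw [hX']; abel
  have eh : (h : Mat 6) - 1 = Y + Y' := by rw [hY']; abel
  rw [eg, eh] at h1
  have e : ((⁅g, h⁆ : (Mat 6)ˣ) : Mat 6) - 1 - (X * Y - Y * X) =
      (((⁅g, h⁆ : (Mat 6)ˣ) : Mat 6) - 1 - ((X + X') * (Y + Y') - (Y + Y') * (X + X'))) +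
        ((X * Y' + X' * Y + X' * Y') - (Y' * X + Y * X' + Y' * X')) := by
    noncomm_ring
  rw [e]
  refine h1.add (IsN.sub ?_ ?_)
  · refine IsN.add (IsN.add (hX.mul hh) ?_) ?_
    · exact (hg.mul hY).mono (by omega)
    · exact (hg.mul hh).mono (by omega)
  · refine IsN.add (IsN.add ?_ ?_) ?_
    · exact (hh.mul hX).mono (by omega)
    · exact (hY.mul hg).mono (by omega)
    · exact (hh.mul hg).mono (by omega)

lemma main (hL : S_LEAD) (x : ℕ → (Mat 6)ˣ) (n m : ℕ → ZMod 7)
    (hx : ∀ k, IsN 6 2 ((x k : Mat 6) - 1 - n k • aA - m k • bA)) (y z : ℕ) (Z : List ℕ) :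
    Z.length ≤ 3 → IsN 6 (Z.length + 3) (((E x y z Z : (Mat 6)ˣ) : Mat 6) - 1 -
      ((m y * n z - n y * m z) * (Z.map n).prod) • el (Z.length + 2)) := by
  have hx' : ∀ k, IsN 6 2 ((x k : Mat 6) - 1 - (n k • aA + m k • bA)) := by
    intro k
    have := hx k
    rwa [sub_sub] at this
  have hlin : ∀ k, IsN 6 1 (n k • aA + m k • bA) := fun k =>
    (isN_aA.smul _).add (isN_bA.smul _)
  induction Z using List.reverseRecOn with
  | nil =>
    intro _
    have h1 := lead_step hL 1 le_rfl (x y) (x z) (n y • aA + m y • bA) (n z • aA + m z • bA)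
      (hlin y) (hlin z) (hx' y) (hx' z)
    have e : (n y • aA + m y • bA) * (n z • aA + m z • bA) -
        (n z • aA + m z • bA) * (n y • aA + m y • bA) =
        ((m y * n z - n y * m z) * ((([] : List ℕ).map n).prod)) • el (([] : List ℕ).length + 2) := by
      have e1 : aA * bA = 0 := by rw [bA_eq]; exact aA_mul_el 1
      have e2 : bA * aA = el 2 := by rw [bA_eq]; exact el_mul_aA 1 le_rfl (by norm_num)
      simp only [add_mul, mul_add, smul_mul_smul_comm, e1, e2, smul_zero, List.map_nil,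
        List.prod_nil, mul_one, List.length_nil, zero_add, add_zero]
      rw [sub_smul, mul_comm (n z) (n y), mul_comm (m z) (m y), mul_comm (m z) (n y)]
      abel
    rw [e] at h1
    exact h1
  | append_singleton Z k ih =>
    intro hZ
    rw [List.length_append, List.length_singleton] at hZ
    have h0 := ih (by omega)
    have h1 := lead_step hL (Z.length + 2) (by omega) (E x y z Z) (x k)
      (((m y * n z - n y * m z) * (Z.map n).prod) • el (Z.length + 2)) (n k • aA + m k • bA)
      ((isN_el _).smul _) (hlin k) h0 (hx' k)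
    have e : (((m y * n z - n y * m z) * (Z.map n).prod) • el (Z.length + 2)) *
          (n k • aA + m k • bA) - (n k • aA + m k • bA) *
          (((m y * n z - n y * m z) * (Z.map n).prod) • el (Z.length + 2)) =
        ((m y * n z - n y * m z) * (((Z ++ [k]).map n).prod)) • el ((Z ++ [k]).length + 2) := by
      have e1 := el_mul_aA (Z.length + 2) (by omega) (by omega)
      have e2 := el_mul_bA (Z.length + 2) (by omega)
      have e3 := aA_mul_el (Z.length + 2)
      have e4 := bA_mul_el (Z.length + 2)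
      simp only [add_mul, mul_add, smul_mul_smul_comm, e1, e2, e3, e4, smul_zero, add_zero,
        sub_zero, List.map_append, List.map_cons, List.map_nil, List.prod_append, List.prod_cons,
        List.prod_nil, mul_one, List.length_append, List.length_singleton]
      rw [mul_assoc]
    rw [E_append, ← e, List.length_append, List.length_singleton]
    exact h1

theorem eva : S_UNI → S_LEAD → S_EVA := by
  intro _ hL x n m hx y z Z hZ
  have h := main hL x n m hx y z Z hZ
  refine ⟨?_, ?_⟩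
  · have h1 := (h.mono (l := Z.length + 2) (by omega)).add
      ((isN_el (Z.length + 2)).smul ((m y * n z - n y * m z) * (Z.map n).prod))
    rwa [sub_add_cancel] at h1
  · intro j hj
    have h1 := h 0 j (by rw [hj]; simp)
    rw [Matrix.sub_apply, Matrix.sub_apply, Matrix.smul_apply, Matrix.one_apply_ne (by
      intro h0
      rw [← h0] at hj
      simp at hj)] at h1
    have h2 : el (Z.length + 2) 0 j = 1 := by
      unfold el
      rw [if_pos ⟨rfl, hj⟩]
    rw [h2, smul_eq_mul, mul_one, sub_zero] at h1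
    exact sub_eq_zero.1 h1

end Pool.Agent.Q192.VG
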